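import Mathlib
import Pool.Agent.H55.ML.Main
import Pool.Agent.H55.ML.MalCont
import Pool.Agent.H55.ML.DTleDC
import Pool.Agent.H55.ML.GapLow
import Pool.Agent.H55.ML.GapUp

/-!
# The malnormality constant of a Ginibre matrix converges

For the normalized Ginibre matrix `X_n` the malnormality constant `mal (X_n)` converges, in
probability and in distribution, to the deterministic constant `limitConstant`, the malnormality
constant of a circular element. The constant is defined by an explicit quadratic form on functions
on the words in two letters, and `1 - 1/√2 ≤ limitConstant ≤ √2 - 1`.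

The proof is in the folder `Pool/Agent/H55/ML`.
-/

set_option autoImplicit false

namespace Pool.Agent.Results.MP_2b108f_pr.MalnormalityLimit

open MeasureTheory ProbabilityTheory Filter

/-- Hilbert-Schmidt norm of a complex matrix. -/
noncomputable def hsNorm {n : ℕ} (A : Matrix (Fin n) (Fin n) ℂ) : ℝ :=
  Real.sqrt (∑ i, ∑ j, ‖A i j‖ ^ 2)

/-- The malnormality constant: the infimum of the Hilbert-Schmidt norm of the commutator `X B - B X`
over the Hermitian matrices `B` with trace zero and Hilbert-Schmidt norm one. -/
noncomputable def mal {n : ℕ} (X : Matrix (Fin n) (Fin n) ℂ) : ℝ :=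
  sInf {r : ℝ | ∃ B : Matrix (Fin n) (Fin n) ℂ, B.IsHermitian ∧ B.trace = 0 ∧ hsNorm B = 1 ∧
    r = hsNorm (X * B - B * X)}

/-- The law of a standard complex Gaussian variable `(a + i b) / √2`, with `a`, `b` independent
real `N(0,1)` variables. -/
noncomputable def stdComplexGaussian : Measure ℂ :=
  ((gaussianReal 0 1).prod (gaussianReal 0 1)).map
    (fun p : ℝ × ℝ => ((p.1 : ℂ) + (p.2 : ℂ) * Complex.I) / (Real.sqrt 2 : ℂ))

/-- The matrix `n^{-1/2} (g i j)`. -/
noncomputable def normalized {n : ℕ} (g : Fin n → Fin n → ℂ) : Matrix (Fin n) (Fin n) ℂ :=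
  Matrix.of fun i j => ((Real.sqrt n : ℂ))⁻¹ * g i j

/-- Creation of the first letter `b`: `δ_w ↦ δ_{b w}`. -/
def create (b : Bool) (f : List Bool → ℂ) : List Bool → ℂ
  | [] => 0
  | a :: w => if a = b then f w else 0

/-- The circular element (`b = true`) and its adjoint (`b = false`) acting from the left on
functions on words: creation of the letter `b` plus annihilation of the other letter. -/
def left (b : Bool) (f : List Bool → ℂ) : List Bool → ℂ :=
  fun w => create b f w + f ((!b) :: w)

/-- The same operators acting from the right, that is, at the end of the words. -/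
def right (b : Bool) (f : List Bool → ℂ) : List Bool → ℂ :=
  fun w => left b (fun u => f u.reverse) w.reverse

/-- The quadratic form `‖c f - f c‖² + ‖c* f - f c*‖²`, `c` the circular element. -/
noncomputable def form (f : List Bool → ℂ) : ℝ :=
  (∑' w, ‖left true f w - right true f w‖ ^ 2) + ∑' w, ‖left false f w - right false f w‖ ^ 2

/-- The infimum of the form over the unit vectors of `ℓ²(words)` that vanish at the empty word. -/
noncomputable def bottom : ℝ :=
  sInf {r : ℝ | ∃ f : List Bool → ℂ, f [] = 0 ∧ HasSum (fun w => ‖f w‖ ^ 2) 1 ∧ r = form f}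

/-- The limit of the malnormality constants. -/
noncomputable def limitConstant : ℝ := Real.sqrt (bottom / 2)

private theorem create_eq (b : Bool) (f : List Bool → ℂ) : create b f = H55.ML.cre b f := by
  funext w
  cases w <;> rfl

private theorem left_eq (b : Bool) (f : List Bool → ℂ) : left b f = H55.ML.cL b f := by
  funext w
  simp only [left, H55.ML.cL, create_eq]

private theorem right_eq (b : Bool) (f : List Bool → ℂ) : right b f = H55.ML.cR b f := by
  funext w
  simp only [right, H55.ML.cR, left_eq]

private theorem form_eq (f : List Bool → ℂ) : form f = H55.ML.qT f := by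
  simp only [form, H55.ML.qT, left_eq, right_eq]

private theorem bottom_eq : bottom = H55.ML.dT := by
  simp only [bottom, H55.ML.dT, form_eq]

private theorem limit_eq : limitConstant = H55.ML.cmal := by
  rw [limitConstant, H55.ML.cmal, bottom_eq, min_eq_right H55.ML.dT_le_dC]

private theorem mal_eq {n : ℕ} (X : Matrix (Fin n) (Fin n) ℂ) : mal X = H55.ML.mal X := by
  unfold mal H55.ML.mal
  congr 1
  ext r
  constructor
  · rintro ⟨B, h1, h2, h3, h4⟩
    refine ⟨B, h1, h2, ?_, h4⟩
    have : Real.sqrt (H55.ML.hs2 B) = 1 := h3
    rwa [Real.sqrt_eq_one] at this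
  · rintro ⟨B, h1, h2, h3, h4⟩
    refine ⟨B, h1, h2, ?_, h4⟩
    have : Real.sqrt (H55.ML.hs2 B) = 1 := by rw [h3, Real.sqrt_one]
    exact this

private theorem normalized_eq {n : ℕ} (g : Fin n → Fin n → ℂ) :
    normalized g = H55.ML.XX (fun p : Fin n × Fin n => g p.1 p.2) := by
  ext i j
  simp [normalized, H55.ML.XX]

private theorem bounds : 1 - 1 / Real.sqrt 2 ≤ limitConstant ∧ limitConstant ≤ Real.sqrt 2 - 1 := by
  have h2 : Real.sqrt 2 ^ 2 = 2 := Real.sq_sqrt (by norm_num)
  have h1 : 1 ≤ Real.sqrt 2 := by
    rw [show (1 : ℝ) = Real.sqrt 1 by simp]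
    exact Real.sqrt_le_sqrt (by norm_num)
  have h0 : 0 < Real.sqrt 2 := by positivity
  rw [limitConstant, bottom_eq]
  constructor
  · apply Real.le_sqrt_of_sq_le
    have h3 := H55.ML.dT_ge
    have h4 : 1 / Real.sqrt 2 = Real.sqrt 2 / 2 := by
      rw [div_eq_div_iff h0.ne' two_ne_zero, one_mul]
      nlinarith
    rw [h4]
    nlinarith
  · rw [Real.sqrt_le_left (by linarith)]
    have h3 := H55.ML.dT_le_dC
    have h4 := H55.ML.dC_le_six
    nlinarith

/-- **Main theorem.** For every probability space carrying, for every `n`, independent standard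
complex Gaussian variables `g n i j` (`i, j < n`), the malnormality constant of the normalized
Ginibre matrix converges to `limitConstant` in probability and in distribution;
moreover `1 - 1/√2 ≤ limitConstant ≤ √2 - 1`. -/
theorem result :
    (1 - 1 / Real.sqrt 2 ≤ limitConstant ∧ limitConstant ≤ Real.sqrt 2 - 1) ∧
    ∀ (Ω : Type) [MeasurableSpace Ω] (P : Measure Ω) [IsProbabilityMeasure P]
      (g : ∀ n : ℕ, Fin n → Fin n → Ω → ℂ),
      (∀ n i j, Measurable (g n i j)) →
      (∀ n i j, P.map (g n i j) = stdComplexGaussian) →
      (∀ n, iIndepFun (fun p : Fin n × Fin n => g n p.1 p.2) P) →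
      TendstoInMeasure P (fun n ω => mal (normalized fun i j => g n i j ω)) atTop
        (fun _ => limitConstant) ∧
      TendstoInDistribution (fun n ω => mal (normalized fun i j => g n i j ω)) atTop
        (fun _ : Ω => limitConstant) (fun _ => P) P := by
  refine ⟨bounds, ?_⟩
  intro Ω _ P _ g hmeas hlaw hind
  have hjoint : ∀ n, P.map (fun ω (p : Fin n × Fin n) => g n p.1 p.2 ω) = H55.ML.gin n := by
    intro n
    have h := (iIndepFun_iff_map_fun_eq_pi_map
      (fun p : Fin n × Fin n => (hmeas n p.1 p.2).aemeasurable)).mp (hind n)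
    rw [h]
    unfold H55.ML.gin
    congr 1
    funext p
    rw [hlaw]
    rfl
  have hm : ∀ n, Measurable (fun ω (p : Fin n × Fin n) => g n p.1 p.2 ω) := fun n =>
    measurable_pi_lambda _ fun p => hmeas n p.1 p.2
  have hX : ∀ n, (fun ω => mal (normalized fun i j => g n i j ω)) =
      (fun h : Fin n × Fin n → ℂ => H55.ML.mal (H55.ML.XX h)) ∘
        (fun ω (p : Fin n × Fin n) => g n p.1 p.2 ω) := by
    intro n
    funext ω
    simp only [Function.comp, mal_eq, normalized_eq]
  have hmal : ∀ n, Measurable (fun ω => mal (normalized fun i j => g n i j ω)) := by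
    intro n
    rw [hX n]
    exact H55.ML.measurable_mal_XX.comp (hm n)
  have hprob : TendstoInMeasure P (fun n ω => mal (normalized fun i j => g n i j ω)) atTop
      (fun _ => limitConstant) := by
    rw [tendstoInMeasure_iff_norm]
    intro ε hε
    have h := H55.ML.mal_gin ε hε
    refine h.congr fun n => ?_
    rw [← hjoint n, Measure.map_apply (hm n)]
    · congr 1
      ext ω
      have := congrFun (hX n) ω
      simp only [Function.comp] at this
      simp only [Set.mem_preimage, Set.mem_setOf_eq, Real.norm_eq_abs]
      rw [this, limit_eq]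
    · exact measurableSet_le measurable_const
        ((H55.ML.measurable_mal_XX.sub measurable_const).abs)
  exact ⟨hprob, hprob.tendstoInDistribution fun n => (hmal n).aemeasurable⟩

end Pool.Agent.Results.MP_2b108f_pr.MalnormalityLimit
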